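import Mathlib

open Set

namespace Pool.Agent.Results.MP_518c18_al.SolubleRank

/-- `H` is generated by `k` elements (repetitions allowed) -/
def Gen {G : Type*} [Group G] (H : Subgroup G) (k : ℕ) : Prop :=
  ∃ x : Fin k → G, Subgroup.closure (range x) = H

theorem Gen.succ {G : Type*} [Group G] {H : Subgroup G} {k : ℕ} (h : Gen H k) : Gen H (k + 1) := by
  obtain ⟨x, hx⟩ := h
  refine ⟨Fin.cons 1 x, ?_⟩
  rw [Fin.range_cons, Subgroup.closure_insert_one, hx]

theorem Gen.mono {G : Type*} [Group G] {H : Subgroup G} {k l : ℕ} (h : Gen H k) (hkl : k ≤ l) :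
    Gen H l := by
  induction hkl with
  | refl => exact h
  | step _ ih => exact ih.succ

theorem Gen.map {G G' : Type*} [Group G] [Group G'] {H : Subgroup G} {k : ℕ} (h : Gen H k)
    (f : G →* G') : Gen (H.map f) k := by
  obtain ⟨x, hx⟩ := h
  refine ⟨f ∘ x, ?_⟩
  rw [range_comp, ← MonoidHom.map_closure, hx]

theorem Gen.of_map_subtype {G : Type*} [Group G] {H : Subgroup G} {K : Subgroup H} {k : ℕ}
    (h : Gen (K.map H.subtype) k) : Gen K k := by
  obtain ⟨x, hx⟩ := h
  have hxK : ∀ i, ∃ y : H, y ∈ K ∧ (y : G) = x i := by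
    intro i
    have h1 : x i ∈ K.map H.subtype := by
      rw [← hx]; exact Subgroup.subset_closure (mem_range_self i)
    obtain ⟨y, hy, hy'⟩ := h1
    exact ⟨y, hy, hy'⟩
  choose y hy hy' using hxK
  refine ⟨y, ?_⟩
  apply Subgroup.map_injective H.subtype_injective
  rw [MonoidHom.map_closure, ← hx, ← range_comp]
  congr 2
  ext i
  exact hy' i

theorem Gen.ext' {G G' : Type*} [Group G] [Group G'] {H : Subgroup G} {a b : ℕ} (f : G →* G')
    (h1 : Gen (H ⊓ f.ker) a) (h2 : Gen (H.map f) b) : Gen H (a + b) := by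
  obtain ⟨x, hx⟩ := h1
  obtain ⟨y, hy⟩ := h2
  have hyH : ∀ i, ∃ z : G, z ∈ H ∧ f z = y i := by
    intro i
    have h1 : y i ∈ H.map f := by
      rw [← hy]; exact Subgroup.subset_closure (mem_range_self i)
    obtain ⟨z, hz, hz'⟩ := h1
    exact ⟨z, hz, hz'⟩
  choose z hz hz' using hyH
  refine ⟨Fin.append x z, ?_⟩
  have hr : range (Fin.append x z) = range x ∪ range z := by
    ext w
    constructor
    · rintro ⟨i, rfl⟩
      refine Fin.addCases (fun j => ?_) (fun j => ?_) i
      · rw [Fin.append_left]; exact Or.inl (mem_range_self j)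
      · rw [Fin.append_right]; exact Or.inr (mem_range_self j)
    · rintro (⟨j, rfl⟩ | ⟨j, rfl⟩)
      · exact ⟨Fin.castAdd b j, Fin.append_left _ _ _⟩
      · exact ⟨Fin.natAdd a j, Fin.append_right _ _ _⟩
  rw [hr]
  apply le_antisymm
  · rw [Subgroup.closure_le]
    rintro w (⟨j, rfl⟩ | ⟨j, rfl⟩)
    · have : x j ∈ H ⊓ f.ker := by rw [← hx]; exact Subgroup.subset_closure (mem_range_self j)
      exact this.1
    · exact hz j
  · intro w hw
    have h3 : f w ∈ Subgroup.closure (f '' range z) := by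
      rw [← range_comp]
      have : f ∘ z = y := by ext i; exact hz' i
      rw [this, hy]
      exact ⟨w, hw, rfl⟩
    rw [← MonoidHom.map_closure] at h3
    obtain ⟨u, hu, hu'⟩ := h3
    have huH : u ∈ H := by
      have : Subgroup.closure (range z) ≤ H := by
        rw [Subgroup.closure_le]
        rintro _ ⟨j, rfl⟩
        exact hz j
      exact this hu
    have h4 : w * u⁻¹ ∈ H ⊓ f.ker := by
      refine ⟨H.mul_mem hw (H.inv_mem huH), ?_⟩
      show f (w * u⁻¹) = 1
      rw [map_mul, map_inv]
      have : f u = f w := hu'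
      rw [this, mul_inv_cancel]
    rw [← hx] at h4
    have h5 : w = (w * u⁻¹) * u := by group
    rw [h5]
    apply Subgroup.mul_mem
    · exact Subgroup.closure_mono subset_union_left h4
    · exact Subgroup.closure_mono subset_union_right hu

theorem gen_of_isCyclic {G : Type*} [Group G] (H : Subgroup G) (h : IsCyclic H) : Gen H 1 := by
  obtain ⟨g, hg⟩ := (Subgroup.isCyclic_iff_exists_zpowers_eq_top H).1 h
  refine ⟨fun _ => g, ?_⟩
  rw [← hg, Subgroup.zpowers_eq_closure]
  congr 1
  ext x
  simp [eq_comm]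

theorem gen_of_le_cyclic {G : Type*} [Group G] {H K : Subgroup G} (h : H ≤ K) (hK : IsCyclic K) :
    Gen H 1 := by
  apply gen_of_isCyclic
  exact isCyclic_of_injective (Subgroup.inclusion h) (Subgroup.inclusion_injective h)

theorem gen_bot {G : Type*} [Group G] (k : ℕ) : Gen (⊥ : Subgroup G) k := by
  refine ⟨fun _ => 1, ?_⟩
  rw [Subgroup.closure_eq_bot_iff]
  rintro _ ⟨i, rfl⟩
  rfl

end Pool.Agent.Results.MP_518c18_al.SolubleRank
namespace Pool.Agent.Results.MP_518c18_al.SolubleRank

/-- a nontrivial normal subgroup of a finite `p`-group meets the centre nontrivially -/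
theorem meet_center {p : ℕ} [Fact p.Prime] {P : Type*} [Group P] [Finite P] (hP : IsPGroup p P)
    (M : Subgroup P) [hM : M.Normal] (hne : M ≠ ⊥) : ∃ x ∈ M, x ≠ 1 ∧ ∀ g : P, g * x = x * g := by
  let _ : MulAction P M := MulAction.compHom M (MulAut.conjNormal : P →* MulAut M)
  have hp : p ∣ Nat.card M := by
    have h1 : Nontrivial M := (Subgroup.nontrivial_iff_ne_bot M).2 hne
    obtain ⟨n, hn, h2⟩ := (hP.to_subgroup M).nontrivial_iff_card.1 h1
    rw [h2]
    exact dvd_pow_self p hn.ne'
  have h1 : (1 : M) ∈ MulAction.fixedPoints P M := by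
    intro g
    exact map_one (MulAut.conjNormal g : MulAut M)
  obtain ⟨b, hb, hb'⟩ := hP.exists_fixed_point_of_prime_dvd_card_of_fixed_point M hp h1
  refine ⟨b, b.2, ?_, ?_⟩
  · intro h
    exact hb' (Subtype.ext h.symm)
  · intro g
    have h2 : (MulAut.conjNormal g b : M) = b := hb g
    have h3 : (g * (b : P) * g⁻¹) = b := by
      rw [← MulAut.conjNormal_apply, h2]
    calc g * (b : P) = (g * (b : P) * g⁻¹) * g := by group
      _ = b * g := by rw [h3]

/-- a finite commutative `p`-group with at most `p` solutions of `x ^ p = 1` is cyclic -/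
theorem cyclic_of_torsion {p : ℕ} [hp : Fact p.Prime] {N : Type*} [CommGroup N] [Finite N]
    (hN : IsPGroup p N) (h : Nat.card {x : N // x ^ p = 1} ≤ p) : IsCyclic N := by
  classical
  have : Fintype N := Fintype.ofFinite N
  have hcard : ∀ j : ℕ, (Finset.univ.filter (fun x : N => x ^ (p ^ j) = 1)).card ≤ p ^ j := by
    intro j
    induction j with
    | zero =>
      have : Finset.univ.filter (fun x : N => x ^ (p ^ 0) = 1) = {1} := by
        ext x; simp
      rw [this]; simp
    | succ j ih =>
      have h1 := Finset.card_le_mul_card_image (f := fun x : N => x ^ p)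
        (Finset.univ.filter (fun x : N => x ^ (p ^ (j + 1)) = 1)) p ?_
      · refine h1.trans ?_
        rw [pow_succ, mul_comm (p ^ j) p]
        apply Nat.mul_le_mul_left
        refine le_trans (Finset.card_le_card ?_) ih
        intro y hy
        rw [Finset.mem_image] at hy
        obtain ⟨x, hx, rfl⟩ := hy
        rw [Finset.mem_filter] at hx ⊢
        refine ⟨Finset.mem_univ _, ?_⟩
        rw [← pow_mul]
        exact hx.2
      · intro y hy
        rw [Finset.mem_image] at hy
        obtain ⟨x0, hx0, rfl⟩ := hy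
        rw [Nat.card_eq_fintype_card, Fintype.card_subtype] at h
        refine le_trans ?_ h
        apply Finset.card_le_card_of_injOn (fun x => x * x0⁻¹)
        · intro x hx
          rw [Finset.mem_coe, Finset.mem_filter] at hx
          rw [Finset.mem_coe, Finset.mem_filter]
          refine ⟨Finset.mem_univ _, ?_⟩
          show (x * x0⁻¹) ^ p = 1
          rw [mul_pow, hx.2, inv_pow, mul_inv_cancel]
        · intro x _ y _ hxy
          exact mul_right_cancel hxy
  apply isCyclic_of_card_pow_eq_one_le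
  intro n hn
  -- write n = p ^ j * m
  obtain ⟨j, m, hm, hnm⟩ := Nat.exists_eq_pow_mul_and_not_dvd hn.ne' p hp.out.ne_one
  have h1 : ∀ x : N, x ^ n = 1 → x ^ (p ^ j) = 1 := by
    intro x hx
    obtain ⟨k, hk⟩ := IsPGroup.iff_orderOf.1 hN x
    rw [← orderOf_dvd_iff_pow_eq_one] at hx ⊢
    rw [hk] at hx ⊢
    rw [hnm] at hx
    have hc : Nat.Coprime (p ^ k) m := by
      apply Nat.Coprime.pow_left
      exact (Nat.Prime.coprime_iff_not_dvd hp.out).2 hm
    exact hc.dvd_of_dvd_mul_right hx
  calc (Finset.univ.filter (fun x : N => x ^ n = 1)).card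
      ≤ (Finset.univ.filter (fun x : N => x ^ (p ^ j) = 1)).card := by
        apply Finset.card_le_card
        intro x hx
        rw [Finset.mem_filter] at hx ⊢
        exact ⟨Finset.mem_univ _, h1 x hx.2⟩
    _ ≤ p ^ j := hcard j
    _ ≤ n := by
      rw [hnm]
      apply Nat.le_mul_of_pos_right
      rcases Nat.eq_zero_or_pos m with h0 | h0
      · rw [h0] at hm; exact absurd (dvd_zero p) hm
      · exact h0

theorem cyclic_of_torsion' {p : ℕ} [hp : Fact p.Prime] {P : Type*} [Group P] [Finite P]
    (hP : IsPGroup p P) (N : Subgroup P) (hN : ∀ a ∈ N, ∀ b ∈ N, a * b = b * a) (z : P)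
    (hz : orderOf z = p) (h : ∀ x ∈ N, x ^ p = 1 → x ∈ Subgroup.zpowers z) : IsCyclic N := by
  let _ : CommGroup N := { (inferInstance : Group N) with
    mul_comm := fun a b => Subtype.ext (hN a a.2 b b.2) }
  apply cyclic_of_torsion (p := p) (hP.to_subgroup N)
  have h1 : Nat.card (Subgroup.zpowers z) = p := by rw [Nat.card_zpowers, hz]
  have : Finite (Subgroup.zpowers z) := inferInstance
  refine le_trans (Nat.card_le_card_of_injective (fun x : {x : N // x ^ p = 1} =>
    (⟨(x : N), h x.1 x.1.2 (by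
      have := x.2
      rw [← Subgroup.coe_pow, this]; rfl)⟩ : Subgroup.zpowers z)) ?_) h1.le
  intro x y hxy
  apply Subtype.ext
  apply Subtype.ext
  exact congrArg (fun w : Subgroup.zpowers z => (w : P)) hxy

theorem gen_units (p : ℕ) [hp : Fact p.Prime] (k : ℕ) (K : Subgroup (ZMod (p ^ k))ˣ) : Gen K 2 := by
  by_cases h2 : p = 2
  · subst h2
    match k, K with
    | 0, K =>
      have : IsCyclic (ZMod (2 ^ 0))ˣ := (ZMod.isCyclic_units_two_pow_iff 0).2 (by omega)
      exact (gen_of_isCyclic K inferInstance).succ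
    | 1, K =>
      have : IsCyclic (ZMod (2 ^ 1))ˣ := (ZMod.isCyclic_units_two_pow_iff 1).2 (by omega)
      exact (gen_of_isCyclic K inferInstance).succ
    | k + 2, K =>
      have hd : 4 ∣ 2 ^ (k + 2) := by
        rw [pow_add]; exact Dvd.intro_left _ rfl
      have : NeZero (2 ^ (k + 2)) := ⟨by positivity⟩
      refine Gen.ext' (a := 1) (b := 1) (ZMod.unitsMap hd) ?_ ?_
      · apply gen_of_le_cyclic (inf_le_right)
        -- the kernel is generated by 5
        have h5 : IsUnit (5 : ZMod (2 ^ (k + 2))) := by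
          have h := (ZMod.isUnit_iff_coprime 5 (2 ^ (k + 2))).2 (by
            apply Nat.Coprime.pow_right; norm_num)
          exact_mod_cast h
        have hker : h5.unit ∈ (ZMod.unitsMap hd).ker := by
          rw [MonoidHom.mem_ker]
          apply Units.ext
          rw [ZMod.unitsMap_def, Units.coe_map, IsUnit.unit_spec]
          simp only [MonoidHom.coe_coe, Units.val_one]
          have : (5 : ZMod (2 ^ (k + 2))) = ((5 : ℕ) : ZMod (2 ^ (k + 2))) := by norm_cast
          rw [this, map_natCast]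
          rfl
        have hord : orderOf (⟨h5.unit, hker⟩ : (ZMod.unitsMap hd).ker) = 2 ^ k := by
          rw [Subgroup.orderOf_mk, ← orderOf_units, IsUnit.unit_spec, ZMod.orderOf_five]
        apply isCyclic_of_orderOf_eq_card (⟨h5.unit, hker⟩ : (ZMod.unitsMap hd).ker)
        rw [hord]
        have h6 : Nat.card (ZMod.unitsMap hd).ker * Nat.card (ZMod 4)ˣ =
            Nat.card (ZMod (2 ^ (k + 2)))ˣ := by
          have h7 := Subgroup.card_eq_card_quotient_mul_card_subgroup (ZMod.unitsMap hd).ker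
          rw [h7, mul_comm]
          congr 1
          exact Nat.card_congr (QuotientGroup.quotientKerEquivOfSurjective _
            (ZMod.unitsMap_surjective hd)).toEquiv.symm
        rw [Nat.card_eq_fintype_card (α := (ZMod 4)ˣ), ZMod.card_units_eq_totient,
          Nat.card_eq_fintype_card (α := (ZMod (2 ^ (k + 2)))ˣ), ZMod.card_units_eq_totient,
          Nat.totient_prime_pow Nat.prime_two (by omega)] at h6
        have h8 : Nat.totient 4 = 2 := by decide
        rw [h8] at h6
        have h9 : k + 2 - 1 = k + 1 := by omega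
        have h10 : 2 ^ (k + 1) = 2 ^ k * 2 := pow_succ 2 k
        rw [h9, h10] at h6
        omega
      · have : IsCyclic (ZMod 4)ˣ := ZMod.isCyclic_units_four
        exact gen_of_isCyclic _ inferInstance
  · have : IsCyclic (ZMod (p ^ k))ˣ := ZMod.isCyclic_units_of_prime_pow p hp.out h2 k
    exact (gen_of_isCyclic K inferInstance).succ


/-- either there is a convenient normal elementary abelian subgroup of rank two, or all subgroups
are generated by three elements -/
theorem dichotomy {p : ℕ} [hp : Fact p.Prime] {P : Type*} [Group P] [Finite P] [Nontrivial P]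
    (hP : IsPGroup p P) :
    (∃ z c : P, (∀ g, g * z = z * g) ∧ z ≠ 1 ∧ z ^ p = 1 ∧ c ∉ Subgroup.zpowers z ∧ c ^ p = 1 ∧
      ∀ x, x * c * x⁻¹ * c⁻¹ ∈ Subgroup.zpowers z) ∨ (∀ H : Subgroup P, Gen H 3) := by
  classical
  -- a central element of order p
  obtain ⟨z, hz1, hz2⟩ : ∃ z : P, (∀ g, g * z = z * g) ∧ orderOf z = p := by
    have h1 : Nontrivial (Subgroup.center P) := hP.center_nontrivial
    obtain ⟨n, hn, h2⟩ := (hP.to_subgroup (Subgroup.center P)).nontrivial_iff_card.1 h1
    have h3 : p ∣ Nat.card (Subgroup.center P) := by rw [h2]; exact dvd_pow_self p hn.ne'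
    obtain ⟨z, hz⟩ := exists_prime_orderOf_dvd_card' p h3
    refine ⟨z, ?_, ?_⟩
    · intro g
      exact (Subgroup.mem_center_iff.1 z.2 g)
    · rw [← hz, Subgroup.orderOf_coe]
  have hzne : z ≠ 1 := by
    rintro rfl
    rw [orderOf_one] at hz2
    exact hp.out.ne_one hz2.symm
  have hzp : z ^ p = 1 := by rw [← hz2]; exact pow_orderOf_eq_one z
  by_cases hc : ∃ c : P, c ∉ Subgroup.zpowers z ∧ c ^ p = 1 ∧
      ∀ x, x * c * x⁻¹ * c⁻¹ ∈ Subgroup.zpowers z
  · obtain ⟨c, h1, h2, h3⟩ := hc
    exact Or.inl ⟨z, c, hz1, hzne, hzp, h1, h2, h3⟩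
  right
  have hZn : (Subgroup.zpowers z).Normal := by
    constructor
    intro n hn g
    obtain ⟨k, rfl⟩ := Subgroup.mem_zpowers_iff.1 hn
    have : g * z ^ k * g⁻¹ = z ^ k := by
      have h4 : Commute g (z ^ k) := (show Commute g z from hz1 g).zpow_right k
      rw [h4.eq, mul_inv_cancel_right]
    rw [this]; exact hn
  -- normal abelian subgroups are cyclic
  have key : ∀ N : Subgroup P, N.Normal → (∀ a ∈ N, ∀ b ∈ N, a * b = b * a) → IsCyclic N := by
    intro N hNn hNc
    apply cyclic_of_torsion' hP N hNc z hz2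
    by_contra hcon
    push Not at hcon
    obtain ⟨x0, hx0, hx0p, hx0z⟩ := hcon
    -- E = elements of N with x^p = 1
    let E : Subgroup P :=
      { carrier := {x | x ∈ N ∧ x ^ p = 1}
        one_mem' := ⟨N.one_mem, one_pow p⟩
        mul_mem' := by
          rintro a b ⟨ha, ha'⟩ ⟨hb, hb'⟩
          refine ⟨N.mul_mem ha hb, ?_⟩
          rw [(show Commute a b from hNc a ha b hb).mul_pow, ha', hb', one_mul]
        inv_mem' := by
          rintro a ⟨ha, ha'⟩
          refine ⟨N.inv_mem ha, ?_⟩
          rw [inv_pow, ha', inv_one] }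
    have hE : E.Normal := by
      constructor
      rintro n ⟨hn, hn'⟩ g
      refine ⟨hNn.conj_mem n hn g, ?_⟩
      rw [conj_pow, hn', mul_one, mul_inv_cancel]
    have hEn : (E.map (QuotientGroup.mk' (Subgroup.zpowers z))).Normal :=
      hE.map _ (QuotientGroup.mk'_surjective _)
    have hEne : E.map (QuotientGroup.mk' (Subgroup.zpowers z)) ≠ ⊥ := by
      intro h
      rw [Subgroup.map_eq_bot_iff, QuotientGroup.ker_mk'] at h
      exact hx0z (h ⟨hx0, hx0p⟩)
    obtain ⟨y, hy, hy1, hy2⟩ := meet_center (hP.to_quotient (Subgroup.zpowers z)) _ hEne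
    obtain ⟨c, ⟨hcN, hcp⟩, rfl⟩ := hy
    apply hc
    refine ⟨c, ?_, hcp, ?_⟩
    · intro h
      exact hy1 ((QuotientGroup.eq_one_iff c).2 h)
    · intro x
      have h4 := hy2 (QuotientGroup.mk' _ x)
      rw [← QuotientGroup.eq_one_iff]
      show (QuotientGroup.mk' (Subgroup.zpowers z)) (x * c * x⁻¹ * c⁻¹) = 1
      rw [map_mul, map_mul, map_mul, map_inv, map_inv, h4]
      group
  -- a maximal normal abelian subgroup
  let S : Set (Subgroup P) := {N | N.Normal ∧ ∀ a ∈ N, ∀ b ∈ N, a * b = b * a}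
  have hSne : S.Nonempty := ⟨⊥, inferInstance, by
    intro a ha b hb
    rw [Subgroup.mem_bot] at ha hb
    rw [ha, hb]⟩
  obtain ⟨N, ⟨hNn, hNc⟩, hNmax⟩ := Set.Finite.exists_maximal S.toFinite hSne
  have hNcyc : IsCyclic N := key N hNn hNc
  -- self-centralising
  have hself : Subgroup.centralizer (N : Set P) ≤ N := by
    by_contra hcon
    have hCn : (Subgroup.centralizer (N : Set P)).Normal := by
      constructor
      intro x hx g
      rw [Subgroup.mem_centralizer_iff] at hx ⊢
      intro h hh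
      have h4 := hx (g⁻¹ * h * g) (by
        have := hNn.conj_mem h hh g⁻¹
        rwa [inv_inv] at this)
      calc h * (g * x * g⁻¹) = g * ((g⁻¹ * h * g) * x) * g⁻¹ := by group
        _ = g * (x * (g⁻¹ * h * g)) * g⁻¹ := by rw [h4]
        _ = g * x * g⁻¹ * h := by group
    have hCn' : ((Subgroup.centralizer (N : Set P)).map (QuotientGroup.mk' N)).Normal :=
      hCn.map _ (QuotientGroup.mk'_surjective _)
    have hne : (Subgroup.centralizer (N : Set P)).map (QuotientGroup.mk' N) ≠ ⊥ := by
      intro h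
      rw [Subgroup.map_eq_bot_iff, QuotientGroup.ker_mk'] at h
      exact hcon h
    obtain ⟨y, hy, hy1, hy2⟩ := meet_center (hP.to_quotient N) _ hne
    obtain ⟨c, hcC, rfl⟩ := hy
    let N' : Subgroup P := (Subgroup.zpowers (QuotientGroup.mk' N c)).comap (QuotientGroup.mk' N)
    have hN'n : N'.Normal := by
      have : (Subgroup.zpowers (QuotientGroup.mk' N c)).Normal := by
        constructor
        intro n hn g
        obtain ⟨k, rfl⟩ := Subgroup.mem_zpowers_iff.1 hn
        have h5 : g * (QuotientGroup.mk' N c) ^ k * g⁻¹ = (QuotientGroup.mk' N c) ^ k := by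
          have h4 : Commute g ((QuotientGroup.mk' N c) ^ k) :=
            (show Commute g (QuotientGroup.mk' N c) from hy2 g).zpow_right k
          rw [h4.eq, mul_inv_cancel_right]
        rw [h5]; exact hn
      exact this.comap _
    have hform : ∀ x ∈ N', ∃ n ∈ N, ∃ k : ℤ, x = n * c ^ k := by
      intro x hx
      obtain ⟨k, hk⟩ := Subgroup.mem_zpowers_iff.1 (show QuotientGroup.mk' N x ∈
        Subgroup.zpowers (QuotientGroup.mk' N c) from hx)
      refine ⟨x * (c ^ k)⁻¹, ?_, k, by group⟩
      rw [← QuotientGroup.eq_one_iff]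
      show QuotientGroup.mk' N (x * (c ^ k)⁻¹) = 1
      rw [map_mul, map_inv, map_zpow, hk, mul_inv_cancel]
    have hcc : ∀ n ∈ N, Commute n c := by
      intro n hn
      exact (Subgroup.mem_centralizer_iff.1 hcC n hn)
    have hN'c : ∀ a ∈ N', ∀ b ∈ N', a * b = b * a := by
      intro a ha b hb
      obtain ⟨n, hn, k, rfl⟩ := hform a ha
      obtain ⟨m, hm, l, rfl⟩ := hform b hb
      have e1 : Commute n m := hNc n hn m hm
      have e2 : Commute n (c ^ l) := (hcc n hn).zpow_right l
      have e3 : Commute (c ^ k) m := ((hcc m hm).zpow_right k).symm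
      have e4 : Commute (c ^ k) (c ^ l) := (Commute.refl c).zpow_zpow k l
      exact ((e1.mul_right e2).mul_left (e3.mul_right e4)).eq
    have hle : N ≤ N' := by
      intro x hx
      show QuotientGroup.mk' N x ∈ Subgroup.zpowers (QuotientGroup.mk' N c)
      have : QuotientGroup.mk' N x = 1 := (QuotientGroup.eq_one_iff x).2 hx
      rw [this]; exact Subgroup.one_mem _
    have hge := hNmax ⟨hN'n, hN'c⟩ hle
    apply hy1
    show QuotientGroup.mk' N c = 1
    apply (QuotientGroup.eq_one_iff c).2
    apply hge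
    show QuotientGroup.mk' N c ∈ Subgroup.zpowers (QuotientGroup.mk' N c)
    exact Subgroup.mem_zpowers _
  intro H
  have hgen : Gen H (1 + 2) := by
    apply Gen.ext' (MulAut.conjNormal : P →* MulAut N)
    · refine gen_of_le_cyclic (K := N) ?_ hNcyc
      rintro x ⟨_, hx⟩
      apply hself
      rw [Subgroup.mem_centralizer_iff]
      intro n hn
      have h4 : (MulAut.conjNormal x : MulAut N) = 1 := hx
      have h5 : (x * n * x⁻¹) = n := by
        have := MulAut.conjNormal_apply (H := N) x ⟨n, hn⟩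
        rw [h4] at this
        exact this.symm
      calc n * x = (x * n * x⁻¹) * x := by rw [h5]
        _ = x * n := by group
    · obtain ⟨k, hk⟩ := IsPGroup.iff_card.1 (hP.to_subgroup N)
      let e := IsCyclic.mulAutMulEquiv N
      have h4 : Gen ((H.map (MulAut.conjNormal : P →* MulAut N)).map e.toMonoidHom) 2 := by
        generalize (H.map (MulAut.conjNormal : P →* MulAut N)).map e.toMonoidHom = K
        revert K
        rw [hk]
        exact gen_units p k
      have h5 := h4.map e.symm.toMonoidHom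
      rw [Subgroup.map_map] at h5
      have h6 : e.symm.toMonoidHom.comp e.toMonoidHom = MonoidHom.id _ := by
        ext x : 1
        exact e.symm_apply_apply x
      rw [h6, Subgroup.map_id] at h5
      exact h5
  exact hgen

end Pool.Agent.Results.MP_518c18_al.SolubleRank

namespace Pool.Agent.Results.MP_518c18_al.SolubleRank

section sums

variable {p : ℕ} [hp : Fact p.Prime] {E : Type*} [Ring E]

theorem pow_val_add {x : E} (hx : x ^ p = 1) (i j : ZMod p) :
    x ^ i.val * x ^ j.val = x ^ (i + j).val := by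
  rw [← pow_add, ZMod.val_add, ← pow_eq_pow_mod _ hx]

theorem pow_val_mul {x : E} (hx : x ^ p = 1) (i j : ZMod p) :
    (x ^ i.val) ^ j.val = x ^ (i * j).val := by
  rw [← pow_mul, ZMod.val_mul, ← pow_eq_pow_mod _ hx]

theorem mul_sum_pow {x : E} (hx : x ^ p = 1) :
    x * ∑ i : ZMod p, x ^ i.val = ∑ i : ZMod p, x ^ i.val := by
  have h1 : ∀ i : ZMod p, x * x ^ i.val = x ^ (1 + i).val := by
    intro i
    have h2 := pow_val_add hx 1 i
    have h3 : (1 : ZMod p).val = 1 := ZMod.val_one p
    rw [h3, pow_one] at h2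
    exact h2
  rw [Finset.mul_sum]
  simp_rw [h1]
  exact Equiv.sum_comp (Equiv.addLeft (1 : ZMod p)) (fun i => x ^ i.val)

theorem sum_lines {a b : E} (hab : Commute a b) (ha : a ^ p = 1) :
    ∑ i : ZMod p, ∑ j : ZMod p, (a ^ i.val * b) ^ j.val
      = (p : E) + (∑ i : ZMod p, a ^ i.val) * ∑ j ∈ Finset.univ.erase (0 : ZMod p), b ^ j.val := by
  have h1 : ∀ i j : ZMod p, (a ^ i.val * b) ^ j.val = a ^ (i * j).val * b ^ j.val := by
    intro i j
    rw [(hab.pow_left i.val).mul_pow, pow_val_mul ha]
  simp_rw [h1]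
  rw [Finset.sum_comm, ← Finset.add_sum_erase Finset.univ _ (Finset.mem_univ (0 : ZMod p))]
  congr 1
  · simp
  · rw [Finset.mul_sum]
    apply Finset.sum_congr rfl
    intro j hj
    rw [Finset.mem_erase] at hj
    rw [← Finset.sum_mul]
    congr 1
    exact Equiv.sum_comp (Equiv.mulRight₀ j hj.1) (fun i => a ^ i.val)

end sums

section rep

variable {F : Type*} [Field F]

theorem exists_line {p : ℕ} [hp : Fact p.Prime] (hpF : (p : F) ≠ 0) {V : Type*} [AddCommGroup V]
    [Module F V] {a b : Module.End F V} (hab : Commute a b) (ha : a ^ p = 1) (hb : b ^ p = 1)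
    (hne : a ≠ 1) : ∃ i : ℕ, ∃ t : V, (a ^ i * b) t = t ∧ a t ≠ t := by
  obtain ⟨w, hw⟩ : ∃ w, a w ≠ w := by
    by_contra h
    push Not at h
    exact hne (LinearMap.ext h)
  let Sa : Module.End F V := ∑ i : ZMod p, a ^ i.val
  let v := a w - w
  have hv : v ≠ 0 := sub_ne_zero.2 hw
  have hSa : a * Sa = Sa := mul_sum_pow ha
  have hcom : Commute a Sa := Commute.sum_right _ _ _ (fun i _ => (Commute.refl a).pow_right _)
  have hSav : Sa v = 0 := by
    show Sa (a w - w) = 0
    rw [map_sub]
    have : Sa (a w) = Sa w := by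
      have h1 : Sa * a = Sa := by rw [← hcom.eq]; exact hSa
      calc Sa (a w) = (Sa * a) w := rfl
        _ = Sa w := by rw [h1]
    rw [this, sub_self]
  have hbS : Commute b Sa := Commute.sum_right _ _ _ (fun i _ => (hab.symm).pow_right _)
  let T : ZMod p → Module.End F V := fun i => ∑ j : ZMod p, (a ^ i.val * b) ^ j.val
  have hTS : ∀ i, Commute (T i) Sa := by
    intro i
    apply Commute.sum_left
    intro j _
    apply Commute.pow_left
    exact (hcom.pow_left _).mul_left hbS
  have hsum : (∑ i, T i) v = (p : F) • v := by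
    have h1 := sum_lines hab ha
    have h2 : (∑ i, T i) = (p : Module.End F V) + Sa * ∑ j ∈ Finset.univ.erase (0 : ZMod p), b ^ j.val :=
      h1
    have h3 : Commute Sa (∑ j ∈ Finset.univ.erase (0 : ZMod p), b ^ j.val) :=
      Commute.sum_right _ _ _ (fun j _ => hbS.symm.pow_right _)
    rw [h2, h3.eq, LinearMap.add_apply, Module.End.mul_apply, hSav, map_zero, add_zero]
    have h4 : ((p : Module.End F V)) = algebraMap F (Module.End F V) (p : F) := by
      rw [map_natCast]
    rw [h4, Module.algebraMap_end_apply]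
  obtain ⟨i, hi⟩ : ∃ i, T i v ≠ 0 := by
    by_contra h
    push Not at h
    rw [LinearMap.sum_apply, Finset.sum_eq_zero (fun i _ => h i)] at hsum
    exact smul_ne_zero hpF hv hsum.symm
  refine ⟨i.val, T i v, ?_, ?_⟩
  · have h1 : (a ^ i.val * b) ^ p = 1 := by
      rw [(hab.pow_left i.val).mul_pow, ← pow_mul, mul_comm i.val p, pow_mul, ha, one_pow, hb,
        one_mul]
    have h2 : (a ^ i.val * b) * T i = T i := mul_sum_pow h1
    calc (a ^ i.val * b) (T i v) = ((a ^ i.val * b) * T i) v := rfl
      _ = T i v := by rw [h2]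
  · intro h
    -- then Sa t = p t, but Sa t = 0
    have h1 : ∀ n : ℕ, (a ^ n) (T i v) = T i v := by
      intro n
      induction n with
      | zero => rfl
      | succ n ih =>
        rw [pow_succ, Module.End.mul_apply, h, ih]
    have h2 : Sa (T i v) = (p : F) • T i v := by
      show (∑ i : ZMod p, a ^ i.val) (T i v) = _
      rw [LinearMap.sum_apply, Finset.sum_congr rfl (fun j _ => h1 j.val), Finset.sum_const,
        Finset.card_univ, ZMod.card, ← Nat.cast_smul_eq_nsmul F]
    have h3 : Sa (T i v) = 0 := by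
      calc Sa (T i v) = (Sa * T i) v := rfl
        _ = (T i * Sa) v := by rw [(hTS i).eq]
        _ = T i (Sa v) := rfl
        _ = 0 := by rw [hSav, map_zero]
    rw [h3] at h2
    exact smul_ne_zero hpF hi h2.symm

/-- common fixed vectors of a set of group elements -/
def Fx {P : Type*} [Group P] {V : Type*} [AddCommGroup V] [Module F V] (ρ : Representation F P V)
    (S : Set P) : Submodule F V where
  carrier := {v | ∀ g ∈ S, ρ g v = v}
  zero_mem' := fun g _ => map_zero _
  add_mem' := by
    intro a b ha hb g hg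
    rw [map_add, ha g hg, hb g hg]
  smul_mem' := by
    intro c x hx g hg
    rw [map_smul, hx g hg]

theorem mem_Fx {P : Type*} [Group P] {V : Type*} [AddCommGroup V] [Module F V]
    {ρ : Representation F P V} {S : Set P} {v : V} : v ∈ Fx ρ S ↔ ∀ g ∈ S, ρ g v = v := Iff.rfl

/-- the family of all fixed spaces -/
def FF {P : Type*} [Group P] {V : Type*} [AddCommGroup V] [Module F V]
    (ρ : Representation F P V) : Set (Submodule F V) := {U | ∃ S : Set P, U = Fx ρ S}

/-- strictly increasing chains with members in a given family -/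
inductive Ch {V : Type*} [AddCommGroup V] [Module F V] (FM : Set (Submodule F V)) :
    ℕ → Submodule F V → Submodule F V → Prop
  | nil {W W' : Submodule F V} : W ≤ W' → Ch FM 0 W W'
  | cons {n : ℕ} {W U W' : Submodule F V} : U ∈ FM → W < U → Ch FM n U W' → Ch FM (n + 1) W W'

theorem Ch.left {V : Type*} [AddCommGroup V] [Module F V] {FM : Set (Submodule F V)} {n : ℕ}
    {W W1 W2 : Submodule F V} (h : W ≤ W1) (hc : Ch FM n W1 W2) : Ch FM n W W2 := by
  cases hc with
  | nil h1 => exact Ch.nil (h.trans h1)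
  | cons h1 h2 h3 => exact Ch.cons h1 (lt_of_le_of_lt h h2) h3

theorem Ch.trans {V : Type*} [AddCommGroup V] [Module F V] {FM : Set (Submodule F V)} {n m : ℕ}
    {W1 W2 W3 : Submodule F V} (h1 : Ch FM n W1 W2) (h2 : Ch FM m W2 W3) : Ch FM (m + n) W1 W3 := by
  induction h1 with
  | nil h => exact h2.left h
  | cons h3 h4 _ ih => exact Ch.cons h3 h4 (ih h2)

theorem Ch.mono {V : Type*} [AddCommGroup V] [Module F V] {FM FM' : Set (Submodule F V)}
    (hF : FM ⊆ FM') {n : ℕ} {W1 W2 : Submodule F V} (h : Ch FM n W1 W2) : Ch FM' n W1 W2 := by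
  induction h with
  | nil h => exact Ch.nil h
  | cons h1 h2 _ ih => exact Ch.cons (hF h1) h2 ih

theorem Ch.mapSub {V : Type*} [AddCommGroup V] [Module F V] (U0 : Submodule F V)
    {FM : Set (Submodule F U0)} {FM' : Set (Submodule F V)}
    (hF : ∀ U ∈ FM, U.map U0.subtype ∈ FM') {n : ℕ} {W1 W2 : Submodule F U0} (h : Ch FM n W1 W2) :
    Ch FM' n (W1.map U0.subtype) (W2.map U0.subtype) := by
  induction h with
  | nil h => exact Ch.nil (Submodule.map_mono h)
  | cons h1 h2 _ ih =>
    exact Ch.cons (hF _ h1) (Submodule.map_strictMono_of_injective U0.injective_subtype h2) ih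

end rep

end Pool.Agent.Results.MP_518c18_al.SolubleRank

namespace Pool.Agent.Results.MP_518c18_al.SolubleRank

/-- the subgroup-of operation and generation -/
theorem gen_inf_of_subgroupOf {G : Type*} [Group G] {H K : Subgroup G} {k : ℕ}
    (h : Gen (H.subgroupOf K) k) : Gen (H ⊓ K) k := by
  have h1 := h.map K.subtype
  rw [Subgroup.subgroupOf_map_subtype] at h1
  exact h1

theorem exists_quot {F : Type*} [Field F] {I : Type*} [Group I] {W : Type*} [AddCommGroup W]
    [Module F W] (σ : Representation F I W) (K : Subgroup I) [K.Normal]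
    (hK : ∀ g, g ∈ K ↔ σ g = 1) : ∃ σQ : Representation F (I ⧸ K) W,
      (∀ g : I, σQ (QuotientGroup.mk g) = σ g) ∧ Function.Injective σQ := by
  refine ⟨QuotientGroup.lift K σ (fun g hg => (hK g).1 hg), fun g => rfl, ?_⟩
  intro s t hst
  obtain ⟨g, rfl⟩ := QuotientGroup.mk_surjective s
  obtain ⟨h, rfl⟩ := QuotientGroup.mk_surjective t
  have h1 : σ g = σ h := hst
  rw [QuotientGroup.eq, hK, map_mul, ← h1, ← map_mul, inv_mul_cancel, map_one]

theorem reduction {F : Type*} [Field F] {p : ℕ} [hp : Fact p.Prime] (hpF : (p : F) ≠ 0)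
    {P : Type} [Group P] {V : Type} [AddCommGroup V] [Module F V] (ρ : Representation F P V)
    (hρ : Function.Injective ρ) {z c0 : P} (hz : ∀ g, g * z = z * g) (hz1 : z ≠ 1)
    (hzp : z ^ p = 1) (hc0 : c0 ∉ Subgroup.zpowers z) (hc0p : c0 ^ p = 1)
    (hcomm : ∀ x, x * c0 * x⁻¹ * c0⁻¹ ∈ Subgroup.zpowers z) :
    ∃ (I : Subgroup P) (W : Submodule F V) (σ : Representation F I W) (c y : I),
      (∀ v, v ∈ W ↔ ρ c v = v) ∧ (∀ (g : I) (v : W), ((σ g v : W) : V) = ρ g v) ∧ c ≠ 1 ∧
      σ y ≠ 1 ∧ (∀ (H : Subgroup P) (k : ℕ), Gen (H ⊓ I) k → Gen H (k + 1)) := by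
  have hab : Commute (ρ z) (ρ c0) := by
    show ρ z * ρ c0 = ρ c0 * ρ z
    rw [← map_mul, ← map_mul, hz c0]
  have ha : (ρ z) ^ p = 1 := by rw [← map_pow, hzp, map_one]
  have hb : (ρ c0) ^ p = 1 := by rw [← map_pow, hc0p, map_one]
  have hne : ρ z ≠ 1 := by
    intro h
    apply hz1
    apply hρ
    rw [h, map_one]
  obtain ⟨i, t, ht1, ht2⟩ := exists_line hpF hab ha hb hne
  obtain ⟨c, hcdef⟩ : ∃ c, c = z ^ i * c0 := ⟨_, rfl⟩
  have hct : ρ c t = t := by
    rw [hcdef, map_mul, map_pow]
    exact ht1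
  have hc1 : c ≠ 1 := by
    intro h
    apply hc0
    rw [hcdef] at h
    rw [eq_inv_of_mul_eq_one_right h]
    exact Subgroup.inv_mem _ (Subgroup.pow_mem _ (Subgroup.mem_zpowers z) i)
  have hcx : ∀ x, x * c * x⁻¹ * c⁻¹ ∈ Subgroup.zpowers z := by
    intro x
    have h1 : Commute x (z ^ i) := (show Commute x z from hz x).pow_right i
    have h2 : x * c * x⁻¹ * c⁻¹ = z ^ i * (x * c0 * x⁻¹ * c0⁻¹) * (z ^ i)⁻¹ := by
      rw [hcdef, mul_inv_rev, ← mul_assoc x, h1.eq]
      group
    have h3 : Commute (z ^ i) (x * c0 * x⁻¹ * c0⁻¹) :=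
      ((show Commute (x * c0 * x⁻¹ * c0⁻¹) z from hz _).pow_right i).symm
    rw [h2, h3.eq, mul_inv_cancel_right]
    exact hcomm x
  -- the homomorphism x ↦ [x, c]
  let θ : P →* P :=
    { toFun := fun x => x * c * x⁻¹ * c⁻¹
      map_one' := by group
      map_mul' := by
        intro x y
        obtain ⟨k, hk⟩ := Subgroup.mem_zpowers_iff.1 (hcx y)
        have h1 : Commute x (z ^ k) := (show Commute x z from hz x).zpow_right k
        have h2 : Commute (z ^ k) (x * c * x⁻¹ * c⁻¹) :=
          ((show Commute (x * c * x⁻¹ * c⁻¹) z from hz _).zpow_right k).symm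
        calc x * y * c * (x * y)⁻¹ * c⁻¹
            = x * (y * c * y⁻¹ * c⁻¹) * c * x⁻¹ * c⁻¹ := by group
          _ = x * z ^ k * c * x⁻¹ * c⁻¹ := by rw [← hk]
          _ = z ^ k * (x * c * x⁻¹ * c⁻¹) := by rw [h1.eq]; group
          _ = (x * c * x⁻¹ * c⁻¹) * z ^ k := by rw [h2.eq]
          _ = x * c * x⁻¹ * c⁻¹ * (y * c * y⁻¹ * c⁻¹) := by rw [hk] }
  have hI : ∀ x, x ∈ θ.ker ↔ x * c = c * x := by
    intro x
    show x * c * x⁻¹ * c⁻¹ = 1 ↔ _
    rw [mul_inv_eq_one, mul_inv_eq_iff_eq_mul]
  have hθ : ∀ (H : Subgroup P) (k : ℕ), Gen (H ⊓ θ.ker) k → Gen H (k + 1) := by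
    intro H k h
    apply Gen.ext' θ h
    refine gen_of_le_cyclic (K := Subgroup.zpowers z) ?_ inferInstance
    rintro _ ⟨x, _, rfl⟩
    exact hcx x
  have hW : ∀ v, v ∈ Fx ρ {c} ↔ ρ c v = v := by
    intro v
    constructor
    · intro h; exact h c rfl
    · intro h g hg
      rw [mem_singleton_iff] at hg
      rw [hg]; exact h
  have hIW : ∀ g ∈ θ.ker, ∀ v ∈ Fx ρ {c}, ρ g v ∈ Fx ρ {c} := by
    intro g hg v hv
    rw [hW] at hv ⊢
    have h1 : ρ (c * g) v = ρ c (ρ g v) := LinearMap.congr_fun (map_mul ρ c g) v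
    have h2 : ρ (g * c) v = ρ g (ρ c v) := LinearMap.congr_fun (map_mul ρ g c) v
    rw [← h1, ← (hI g).1 hg, h2, hv]
  let σ : Representation F θ.ker (Fx ρ {c}) :=
    { toFun := fun g => (ρ g).restrict (hIW g g.2)
      map_one' := by
        ext v
        show ρ ((1 : θ.ker) : P) v = v
        rw [Subgroup.coe_one, map_one]; rfl
      map_mul' := by
        intro g h
        ext v
        show ρ ((g * h : θ.ker) : P) v = ρ g (ρ h v)
        rw [Subgroup.coe_mul, map_mul]; rfl }
  refine ⟨θ.ker, Fx ρ {c}, σ, ⟨c, (hI c).2 rfl⟩, ⟨z, (hI z).2 (hz c).symm⟩, hW, fun g v => rfl,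
    ?_, ?_, hθ⟩
  · intro h
    exact hc1 (congrArg Subtype.val h)
  · intro h
    have h2 : σ ⟨z, (hI z).2 (hz c).symm⟩ ⟨t, (hW t).2 hct⟩ = ⟨t, (hW t).2 hct⟩ := by rw [h]; rfl
    exact ht2 (congrArg Subtype.val h2)

theorem pmain {F : Type*} [Field F] {p : ℕ} [hp : Fact p.Prime] (hpF : (p : F) ≠ 0) (n : ℕ) :
    ∀ (P : Type) [Group P] [Finite P] [Nontrivial P] (V : Type) [AddCommGroup V] [Module F V]
      (ρ : Representation F P V), IsPGroup p P → Function.Injective ρ → Nat.card P = n →
      ∃ m : ℕ, 1 ≤ m ∧ Ch (FF ρ) m (Fx ρ univ) ⊤ ∧ ∀ H : Subgroup P, Gen H (4 * m - 1) := by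
  induction n using Nat.strong_induction_on with
  | _ n IH =>
  intro P _ _ _ V _ _ ρ hP hρ hn
  rcases dichotomy hP with ⟨z, c0, hz, hz1, hzp, hc0, hc0p, hcomm⟩ | h3
  · -- the elementary abelian case
    obtain ⟨I, W, σ, c, y, hW, hσ, hc1, hy, hgen⟩ :=
      reduction hpF ρ hρ hz hz1 hzp hc0 hc0p hcomm
    obtain ⟨K, hKdef⟩ : ∃ K : Subgroup I, K = MonoidHom.ker σ := ⟨_, rfl⟩
    have hKn : K.Normal := by rw [hKdef]; infer_instance
    have hK' : ∀ g : I, g ∈ K ↔ σ g = 1 := by
      intro g
      rw [hKdef]; rfl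
    have hK : ∀ g : I, g ∈ K ↔ ∀ v ∈ W, ρ (g : P) v = v := by
      intro g
      rw [hK']
      constructor
      · intro h1 v hv
        have h2 : σ g ⟨v, hv⟩ = ⟨v, hv⟩ := by rw [h1]; rfl
        rw [← hσ g ⟨v, hv⟩, h2]
      · intro h
        ext v
        rw [hσ]
        exact h v v.2
    have hcK : c ∈ K := by
      rw [hK]
      intro v hv
      exact (hW v).1 hv
    have hyK : y ∉ K := by
      rw [hK']
      exact hy
    have hKnt : Nontrivial K := ⟨⟨⟨c, hcK⟩, 1, by
      intro h
      exact hc1 (congrArg Subtype.val h)⟩⟩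
    have hQnt : Nontrivial (I ⧸ K) := ⟨⟨QuotientGroup.mk y, 1, by
      intro h
      exact hyK ((QuotientGroup.eq_one_iff _).1 h)⟩⟩
    -- cardinalities
    have hcardI : Nat.card I ≤ n := by
      rw [← hn]
      exact Nat.card_le_card_of_injective _ I.subtype_injective
    have hmul : Nat.card I = Nat.card (I ⧸ K) * Nat.card K :=
      Subgroup.card_eq_card_quotient_mul_card_subgroup K
    have hK1 : 1 < Nat.card K := Finite.one_lt_card
    have hQ1 : 1 < Nat.card (I ⧸ K) := Finite.one_lt_card
    have hKlt : Nat.card K < n := by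
      refine lt_of_lt_of_le ?_ hcardI
      rw [hmul]
      nlinarith
    have hQlt : Nat.card (I ⧸ K) < n := by
      refine lt_of_lt_of_le ?_ hcardI
      rw [hmul]
      nlinarith
    -- induction for K
    obtain ⟨ρK, hρKdef⟩ : ∃ ρK : Representation F K V, ∀ k : K, ρK k = ρ ((k : I) : P) :=
      ⟨ρ.comp (I.subtype.comp K.subtype), fun k => rfl⟩
    have hρK : Function.Injective ρK := by
      intro k l hkl
      rw [hρKdef, hρKdef] at hkl
      exact Subtype.ext (Subtype.ext (hρ hkl))
    obtain ⟨a, ha1, hacA, hagen⟩ := IH _ hKlt K V ρK ((hP.to_subgroup I).to_subgroup K) hρK rfl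
    -- induction for the quotient
    obtain ⟨σQ, hσQ, hσQi⟩ := exists_quot σ K hK'
    obtain ⟨b, hb1, hbcB, hbgen⟩ := IH _ hQlt (I ⧸ K) W σQ
      ((hP.to_subgroup I).to_quotient K) hσQi rfl
    refine ⟨a + b, by omega, ?_, ?_⟩
    · -- the chain
      have h1 : Ch (FF ρ) b ((Fx σQ univ).map W.subtype) ((⊤ : Submodule F W).map W.subtype) := by
        apply hbcB.mapSub
        rintro U ⟨S, rfl⟩
        refine ⟨{g | ∃ h : g ∈ I, (QuotientGroup.mk (⟨g, h⟩ : I) : I ⧸ K) ∈ S} ∪ {(c : P)}, ?_⟩
        ext v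
        constructor
        · rintro ⟨w, hw, rfl⟩
          rintro g (⟨hg, hgS⟩ | hg)
          · have h2 := hw _ hgS
            rw [hσQ] at h2
            have h3 := hσ ⟨g, hg⟩ w
            rw [h2] at h3
            exact h3.symm
          · rw [mem_singleton_iff] at hg
            rw [hg]
            exact (hW _).1 w.2
        · intro hv
          have hvW : v ∈ W := (hW v).2 (hv c (Or.inr rfl))
          refine ⟨⟨v, hvW⟩, ?_, rfl⟩
          intro s hs
          obtain ⟨g, rfl⟩ := QuotientGroup.mk_surjective s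
          rw [hσQ]
          apply Subtype.ext
          rw [hσ]
          exact hv g (Or.inl ⟨g.2, hs⟩)
      have h2 : Ch (FF ρ) a (Fx ρK univ) ⊤ := by
        refine hacA.mono ?_
        rintro U ⟨S, rfl⟩
        refine ⟨(fun k : K => ((k : I) : P)) '' S, ?_⟩
        ext v
        constructor
        · rintro hv _ ⟨k, hk, rfl⟩
          have h4 := hv k hk
          rw [hρKdef] at h4
          exact h4
        · intro hv k hk
          rw [hρKdef]
          exact hv _ ⟨k, hk, rfl⟩
      have h3 : (⊤ : Submodule F W).map W.subtype ≤ Fx ρK univ := by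
        rintro _ ⟨w, _, rfl⟩ k _
        rw [hρKdef]
        exact (hK (k : I)).1 k.2 w w.2
      have h4 : Fx ρ univ ≤ (Fx σQ univ).map W.subtype := by
        intro v hv
        refine ⟨⟨v, (hW v).2 (hv c (mem_univ _))⟩, ?_, rfl⟩
        intro s _
        obtain ⟨g, rfl⟩ := QuotientGroup.mk_surjective s
        rw [hσQ]
        apply Subtype.ext
        rw [hσ]
        exact hv g (mem_univ _)
      exact (h1.left h4).trans (h2.left h3)
    · -- generation
      intro H
      have h1 : Gen (H.subgroupOf I) ((4 * a - 1) + (4 * b - 1)) := by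
        apply Gen.ext' (QuotientGroup.mk' K)
        · rw [QuotientGroup.ker_mk']
          exact gen_inf_of_subgroupOf (hagen _)
        · exact hbgen _
      have h2 := hgen H _ (gen_inf_of_subgroupOf h1)
      exact h2.mono (by omega)
  · refine ⟨1, le_rfl, ?_, h3⟩
    obtain ⟨g, hg⟩ := exists_ne (1 : P)
    have h1 : ρ g ≠ 1 := by
      intro h
      apply hg
      apply hρ
      rw [h, map_one]
    obtain ⟨w, hw⟩ : ∃ w, ρ g w ≠ w := by
      by_contra h
      push Not at h
      exact h1 (LinearMap.ext h)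
    refine Ch.cons (U := ⊤) ⟨∅, ?_⟩ ?_ (Ch.nil le_rfl)
    · ext v
      simp [mem_Fx]
    · rw [lt_top_iff_ne_top]
      intro h
      have h2 : w ∈ Fx ρ univ := by rw [h]; trivial
      exact hw (h2 g (mem_univ _))

end Pool.Agent.Results.MP_518c18_al.SolubleRank

namespace Pool.Agent.Results.MP_518c18_al.SolubleRank

open Cardinal in
/-- a vector space is not the union of fewer than `|F|` proper subspaces -/
theorem avoid {F : Type} [Field F] {V : Type} [AddCommGroup V] [Module F V] {ι : Type}
    (W : ι → Submodule F V) (s : Finset ι) (hW : ∀ i ∈ s, W i ≠ ⊤)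
    (hs : ((s.card : ℕ) : Cardinal) < Cardinal.mk F) : ∃ v, ∀ i ∈ s, v ∉ W i := by
  classical
  induction s using Finset.induction_on with
  | empty => exact ⟨0, fun i hi => absurd hi (Finset.notMem_empty i)⟩
  | insert i s his IH =>
    have hs' : ((s.card : ℕ) : Cardinal) < Cardinal.mk F := by
      refine lt_of_le_of_lt ?_ hs
      exact_mod_cast Finset.card_le_card (Finset.subset_insert i s)
    obtain ⟨v, hv⟩ := IH (fun j hj => hW j (Finset.mem_insert_of_mem hj)) hs'
    by_cases hvi : v ∈ W i
    · obtain ⟨u, hu⟩ : ∃ u, u ∉ W i := by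
        by_contra h
        push Not at h
        exact hW i (Finset.mem_insert_self i s) ((Submodule.eq_top_iff'.2 h))
      obtain ⟨l, hl⟩ : ∃ l : F, ∀ j ∈ s, u + l • v ∉ W j := by
        by_contra h
        push Not at h
        choose j hj hj' using h
        have hinj : Function.Injective (fun l : F => (⟨j l, hj l⟩ : s)) := by
          intro l l' hll
          have h1 : j l = j l' := congrArg Subtype.val hll
          by_contra hne
          have h2 : (u + l • v) - (u + l' • v) ∈ W (j l) := by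
            apply Submodule.sub_mem _ (hj' l)
            rw [h1]; exact hj' l'
          have h3 : (l - l') • v ∈ W (j l) := by
            have : (u + l • v) - (u + l' • v) = (l - l') • v := by
              rw [sub_smul]; abel
            rwa [this] at h2
          exact hv (j l) (hj l) ((Submodule.smul_mem_iff _ (sub_ne_zero.2 hne)).1 h3)
        have h4 := Cardinal.mk_le_of_injective hinj
        rw [Cardinal.mk_coe_finset] at h4
        exact absurd hs' (not_lt.2 h4)
      refine ⟨u + l • v, ?_⟩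
      intro j hj
      rcases Finset.mem_insert.1 hj with rfl | hj
      · intro h
        apply hu
        have : u = (u + l • v) - l • v := by abel
        rw [this]
        exact Submodule.sub_mem _ h (Submodule.smul_mem _ _ hvi)
      · exact hl j hj
    · refine ⟨v, ?_⟩
      intro j hj
      rcases Finset.mem_insert.1 hj with rfl | hj
      · exact hvi
      · exact hv j hj

section orb

variable {G : Type} [Group G] [Finite G] {F : Type} [Field F] {V : Type} [AddCommGroup V]
  [Module F V] (ρ : Representation F G V)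

/-- stabiliser of a set of vectors -/
def St (U : Set V) : Subgroup G where
  carrier := {g | ∀ u ∈ U, ρ g u = u}
  one_mem' := by
    intro u _
    rw [map_one]; rfl
  mul_mem' := by
    intro a b ha hb u hu
    rw [map_mul, Module.End.mul_apply, hb u hu, ha u hu]
  inv_mem' := by
    intro a ha u hu
    have h1 : ρ a⁻¹ (ρ a u) = u := by
      rw [← Module.End.mul_apply, ← map_mul, inv_mul_cancel, map_one]; rfl
    have h2 := ha u hu
    rw [h2] at h1
    exact h1

omit [Finite G] in
theorem mem_St {U : Set V} {g : G} : g ∈ St ρ U ↔ ∀ u ∈ U, ρ g u = u := Iff.rfl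

theorem card_range (v : V) : Set.ncard (Set.range fun g : G => ρ g v) = (St ρ {v}).index := by
  let _ : MulAction G V :=
    { smul := fun g u => ρ g u
      one_smul := by
        intro u
        show ρ 1 u = u
        rw [map_one]; rfl
      mul_smul := by
        intro g h u
        show ρ (g * h) u = ρ g (ρ h u)
        rw [map_mul]; rfl }
  have h1 := MulAction.index_stabilizer G v
  have h2 : MulAction.stabilizer G v = St ρ {v} := by
    ext g
    rw [MulAction.mem_stabilizer_iff, mem_St]
    show ρ g v = v ↔ _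
    simp
  have h3 : MulAction.orbit G v = Set.range fun g : G => ρ g v := rfl
  rw [h2, h3] at h1
  exact h1.symm

/-- the set of orbit sizes -/
def OS : Set ℕ := {k : ℕ | ∃ v : V, Set.ncard (Set.range fun g : G => ρ g v) = k}

theorem OS_finite : (OS ρ).Finite := by
  apply Set.Finite.subset (Set.finite_Iic (Nat.card G))
  rintro k ⟨v, rfl⟩
  rw [card_range]
  exact Nat.le_of_dvd Nat.card_pos (Subgroup.index_dvd_card _)

theorem generic (hF : Cardinal.mk (Subgroup G) < Cardinal.mk F) {U : Submodule F V} :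
    ∃ v ∈ U, St ρ {v} = St ρ U := by
  classical
  have : Fintype (Subgroup G) := Fintype.ofFinite _
  let W : Subgroup G → Submodule F U := fun L => (Fx ρ (L : Set G)).comap U.subtype
  obtain ⟨v, hv⟩ := avoid W (Finset.univ.filter (fun L => W L ≠ ⊤))
    (fun i hi => (Finset.mem_filter.1 hi).2) (by
      refine lt_of_le_of_lt ?_ hF
      rw [Cardinal.mk_fintype]
      exact_mod_cast Finset.card_le_univ _)
  refine ⟨v, v.2, ?_⟩
  have h1 : v ∈ W (St ρ {(v : V)}) := by
    show (v : V) ∈ Fx ρ _
    intro g hg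
    exact hg v rfl
  have h2 : W (St ρ {(v : V)}) = ⊤ := by
    by_contra h
    exact hv _ (Finset.mem_filter.2 ⟨Finset.mem_univ _, h⟩) h1
  apply le_antisymm
  · intro g hg u hu
    have h3 : (⟨u, hu⟩ : U) ∈ W (St ρ {(v : V)}) := by rw [h2]; trivial
    exact h3 g hg
  · intro g hg u hu
    rw [mem_singleton_iff] at hu
    rw [hu]
    exact hg v v.2

theorem index_mem_OS (hF : Cardinal.mk (Subgroup G) < Cardinal.mk F) (U : Submodule F V) :
    (St ρ (U : Set V)).index ∈ OS ρ := by
  obtain ⟨v, _, hv2⟩ := generic ρ hF (U := U)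
  refine ⟨v, ?_⟩
  rw [card_range, hv2]

theorem index_lt {U U' : Submodule F V} (hU : U ∈ FF ρ) (h : U < U') :
    (St ρ (U : Set V)).index < (St ρ (U' : Set V)).index := by
  have h1 : St ρ (U' : Set V) ≤ St ρ (U : Set V) := by
    intro g hg u hu
    exact hg u (h.le hu)
  have h2 : St ρ (U' : Set V) < St ρ (U : Set V) := by
    refine lt_of_le_of_ne h1 ?_
    intro heq
    obtain ⟨S, rfl⟩ := hU
    apply h.not_ge
    intro u hu g hg
    have h3 : g ∈ St ρ ((Fx ρ S : Submodule F V) : Set V) := by
      intro w hw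
      exact hw g hg
    rw [← heq] at h3
    exact h3 u hu
  exact Subgroup.index_strictAnti h2

theorem chain_count (hF : Cardinal.mk (Subgroup G) < Cardinal.mk F) {m : ℕ} {W W' : Submodule F V}
    (hW : W ∈ FF ρ) (h : Ch (FF ρ) m W W') : ∃ s : Finset ℕ, s.card = m + 1 ∧
      (s : Set ℕ) ⊆ OS ρ ∧ ∀ k ∈ s, (St ρ (W : Set V)).index ≤ k := by
  induction h with
  | @nil W W' _ =>
    refine ⟨{(St ρ (W : Set V)).index}, rfl, ?_, ?_⟩
    · intro k hk
      rw [Finset.coe_singleton, mem_singleton_iff] at hk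
      rw [hk]
      exact index_mem_OS ρ hF W
    · intro k hk
      rw [Finset.mem_singleton] at hk
      exact hk.ge
  | @cons n W U W' hU hWU _ ih =>
    obtain ⟨s, hs1, hs2, hs3⟩ := ih hU
    have hlt := index_lt ρ hW hWU
    have hnot : (St ρ (W : Set V)).index ∉ s := by
      intro hmem
      exact absurd (hs3 _ hmem) (not_le.2 hlt)
    refine ⟨insert (St ρ (W : Set V)).index s, ?_, ?_, ?_⟩
    · rw [Finset.card_insert_of_notMem hnot, hs1]
    · intro k hk
      rw [Finset.coe_insert, mem_insert_iff] at hk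
      rcases hk with rfl | hk
      · exact index_mem_OS ρ hF W
      · exact hs2 hk
    · intro k hk
      rcases Finset.mem_insert.1 hk with rfl | hk
      · exact le_rfl
      · exact hlt.le.trans (hs3 k hk)

theorem pgroup_bound (hρ : Function.Injective ρ)
    (hF : Cardinal.mk (Subgroup G) < Cardinal.mk F)
    (hchar : ringChar F = 0 ∨ Nat.Coprime (ringChar F) (Nat.card G)) (p : ℕ) [hp : Fact p.Prime]
    (P : Subgroup G) (hP : IsPGroup p P) : Gen P (4 * Set.ncard (OS ρ) - 5) := by
  rcases subsingleton_or_nontrivial P with hs | hnt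
  · have : P = ⊥ := Subgroup.eq_bot_of_subsingleton P
    rw [this]
    exact gen_bot _
  · have hpF : (p : F) ≠ 0 := by
      intro h0
      have h1 : ringChar F ∣ p := (ringChar.spec F p).1 h0
      rcases hchar with h2 | h2
      · rw [h2, zero_dvd_iff] at h1
        exact hp.out.ne_zero h1
      · obtain ⟨n, hn, h3⟩ := hP.nontrivial_iff_card.1 hnt
        have h4 : p ∣ Nat.card G := by
          refine dvd_trans ?_ (Subgroup.card_subgroup_dvd_card P)
          rw [h3]
          exact dvd_pow_self p hn.ne'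
        rcases (Nat.dvd_prime hp.out).1 h1 with h5 | h5
        · -- the characteristic cannot be one
          have h6 : (1 : F) = 0 := by
            have := (ringChar.spec F 1).2 (by rw [h5])
            rwa [Nat.cast_one] at this
          exact one_ne_zero h6
        · rw [h5] at h2
          have h6 : p ∣ 1 := by
            have h7 := Nat.dvd_gcd (dvd_refl p) h4
            rwa [Nat.Coprime.gcd_eq_one h2] at h7
          exact hp.out.one_lt.ne' (Nat.dvd_one.1 h6)
    obtain ⟨m, hm1, hch, hgen⟩ := pmain hpF (Nat.card P) P V (ρ.comp P.subtype) hP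
      (hρ.comp P.subtype_injective) rfl
    have h1 : Ch (FF ρ) m (Fx (ρ.comp P.subtype) univ) ⊤ := by
      refine hch.mono ?_
      rintro U ⟨S, rfl⟩
      refine ⟨(fun k : P => (k : G)) '' S, ?_⟩
      ext v
      constructor
      · rintro hv _ ⟨k, hk, rfl⟩
        exact hv k hk
      · intro hv k hk
        exact hv _ ⟨k, hk, rfl⟩
    have h2 : Fx (ρ.comp P.subtype) univ ∈ FF ρ := by
      refine ⟨(fun k : P => (k : G)) '' univ, ?_⟩
      ext v
      constructor
      · rintro hv _ ⟨k, hk, rfl⟩
        exact hv k hk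
      · intro hv k hk
        exact hv _ ⟨k, hk, rfl⟩
    obtain ⟨s, hs1, hs2, _⟩ := chain_count ρ hF h2 h1
    have h3 : m + 1 ≤ Set.ncard (OS ρ) := by
      rw [← hs1, ← Set.ncard_coe_finset]
      exact Set.ncard_le_ncard hs2 (OS_finite ρ)
    have h4 := (hgen ⊤).map P.subtype
    rw [← MonoidHom.range_eq_map, Subgroup.range_subtype] at h4
    exact h4.mono (by omega)

end orb

end Pool.Agent.Results.MP_518c18_al.SolubleRank

namespace Pool.Agent.Results.MP_518c18_al.SolubleRank

section deriv

/-- derivations from `H` to a normal subgroup `N`; both inside an ambient group -/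
def IsDer {G : Type*} [Group G] (H N : Subgroup G) (d : H → N) : Prop :=
  ∀ g h : H, (d (g * h) : G) = (d g : G) * ((g : G) * (d h : G) * (g : G)⁻¹)

variable {G : Type*} [Group G] {H N : Subgroup G}

theorem IsDer.one {d : H → N} (hd : IsDer H N d) : d 1 = 1 := by
  have h := hd 1 1
  rw [mul_one, Subgroup.coe_one, one_mul, inv_one, mul_one] at h
  have h2 : (d 1 : G) = 1 := by
    have : (d 1 : G) * 1 = (d 1 : G) * (d 1 : G) := by rw [mul_one]; exact h
    exact (mul_left_cancel this).symm
  exact Subtype.ext h2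

/-- the set on which two derivations agree is a subgroup -/
theorem IsDer.eq_on_closure {d e : H → N} (hd : IsDer H N d) (he : IsDer H N e) (X : Set H)
    (h : ∀ x ∈ X, d x = e x) : ∀ x ∈ Subgroup.closure X, d x = e x := by
  let K : Subgroup H :=
    { carrier := {x | d x = e x}
      one_mem' := by
        show d 1 = e 1
        rw [hd.one, he.one]
      mul_mem' := by
        intro a b ha hb
        have ha' : d a = e a := ha
        have hb' : d b = e b := hb
        apply Subtype.ext
        rw [hd, he, ha', hb']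
      inv_mem' := by
        intro a ha
        have ha' : d a = e a := ha
        have h1 := hd a⁻¹ a
        have h2 := he a⁻¹ a
        rw [inv_mul_cancel, hd.one] at h1
        rw [inv_mul_cancel, he.one, ← ha'] at h2
        rw [h1] at h2
        exact Subtype.ext (mul_right_cancel h2) }
  have h1 : Subgroup.closure X ≤ K := by
    rw [Subgroup.closure_le]
    exact h
  exact fun x hx => h1 hx

/-- two derivations into an elementary abelian normal `p`-subgroup agreeing on a subgroup of index
prime to `p` differ by a principal one -/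
theorem IsDer.principal {p : ℕ} [hp : Fact p.Prime] [Finite G] (hN : N.Normal)
    (hNc : ∀ a ∈ N, ∀ b ∈ N, a * b = b * a) (hNp : ∀ a ∈ N, a ^ p = 1) {d e : H → N}
    (hd : IsDer H N d) (he : IsDer H N e) (S : Subgroup H) (hS : Nat.Coprime p S.index)
    (h : ∀ x ∈ S, d x = e x) : ∃ m : N, ∀ g : H,
      (d g : G) = (m : G) * ((g : G) * (m : G)⁻¹ * (g : G)⁻¹) * (e g : G) := by
  classical
  let _ : CommGroup N := { (inferInstance : Group N) with
    mul_comm := fun a b => Subtype.ext (hNc a a.2 b b.2) }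
  have : Fintype (H ⧸ S) := Fintype.ofFinite _
  -- conjugation action on N
  let cj : G → (N →* N) := fun g =>
    { toFun := fun n => ⟨g * n * g⁻¹, hN.conj_mem n n.2 g⟩
      map_one' := by apply Subtype.ext; simp
      map_mul' := by
        intro a b
        apply Subtype.ext
        show g * ((a : G) * b) * g⁻¹ = (g * a * g⁻¹) * (g * b * g⁻¹)
        group }
  have hcj : ∀ (g : G) (n : N), ((cj g n : N) : G) = g * n * g⁻¹ := fun g n => rfl
  let f : H → N := fun g => d g * (e g)⁻¹
  have hf : ∀ g k : H, f (g * k) = f g * cj g (f k) := by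
    intro g k
    have h1 : d (g * k) = d g * cj g (d k) := Subtype.ext (hd g k)
    have h2 : e (g * k) = e g * cj g (e k) := Subtype.ext (he g k)
    show d (g * k) * (e (g * k))⁻¹ = d g * (e g)⁻¹ * cj g (d k * (e k)⁻¹)
    rw [h1, h2, map_mul, map_inv, mul_inv]
    exact mul_mul_mul_comm _ _ _ _
  have hfS : ∀ x ∈ S, f x = 1 := by
    intro x hx
    show d x * (e x)⁻¹ = 1
    rw [h x hx, mul_inv_cancel]
  have hfc : ∀ g k : H, (QuotientGroup.mk g : H ⧸ S) = QuotientGroup.mk k → f g = f k := by
    intro g k hgk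
    rw [QuotientGroup.eq] at hgk
    have h1 : k = g * (g⁻¹ * k) := by group
    rw [h1, hf, hfS _ hgk, map_one, mul_one]
  let M : N := ∏ q : H ⧸ S, f q.out
  have hM : ∀ g : H, M = (f g) ^ (S.index) * cj g M := by
    intro g
    have h1 : ∏ q : H ⧸ S, f (g * q.out) = M := by
      have h2 : ∀ q : H ⧸ S, f (g * q.out) = (fun q : H ⧸ S => f q.out) (g • q) := by
        intro q
        apply hfc
        show _ = (QuotientGroup.mk ((g • q).out) : H ⧸ S)
        rw [QuotientGroup.out_eq']
        conv_rhs => rw [← QuotientGroup.out_eq' q]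
        rfl
      rw [Finset.prod_congr rfl (fun q _ => h2 q)]
      exact Equiv.prod_comp (MulAction.toPerm g) (fun q : H ⧸ S => f q.out)
    have h3 : ∀ q : H ⧸ S, f (g * q.out) = f g * cj g (f q.out) := fun q => hf g _
    rw [Finset.prod_congr rfl (fun q _ => h3 q), Finset.prod_mul_distrib, Finset.prod_const,
      ← map_prod, Finset.card_univ, ← Nat.card_eq_fintype_card] at h1
    exact h1.symm
  -- invert the index modulo p
  obtain ⟨j, hj⟩ : ∃ j : ℕ, (S.index * j) % p = 1 % p := by
    have h1 : IsUnit ((S.index : ℕ) : ZMod p) := by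
      rw [ZMod.isUnit_iff_coprime]
      exact hS.symm
    obtain ⟨u, hu⟩ := h1.exists_right_inv
    refine ⟨u.val, ?_⟩
    have h2 : ((S.index * u.val : ℕ) : ZMod p) = ((1 : ℕ) : ZMod p) := by
      rw [Nat.cast_mul, ZMod.natCast_zmod_val, hu, Nat.cast_one]
    exact (ZMod.natCast_eq_natCast_iff' _ _ _).1 h2
  have hpow : ∀ n : N, n ^ p = 1 := fun n => Subtype.ext (by
    rw [Subgroup.coe_pow, hNp n n.2]; rfl)
  have hfg : ∀ g : H, f g = M ^ j * (cj g (M ^ j))⁻¹ := by
    intro g
    have h1 := hM g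
    have h2 : (f g) ^ S.index = M * (cj g M)⁻¹ := by
      rw [eq_mul_inv_iff_mul_eq]
      exact h1.symm
    have h3 : (f g) ^ (S.index * j) = f g := by
      rw [pow_eq_pow_mod _ (hpow (f g)), hj, ← pow_eq_pow_mod _ (hpow (f g)), pow_one]
    rw [← h3, pow_mul, h2, mul_pow, inv_pow, map_pow]
  refine ⟨M ^ j, ?_⟩
  intro g
  have h1 : d g = f g * e g := by
    show d g = d g * (e g)⁻¹ * e g
    rw [inv_mul_cancel_right]
  rw [h1, hfg g, Subgroup.coe_mul, Subgroup.coe_mul, Subgroup.coe_inv, hcj]
  congr 2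
  group

/-- bound for the number of derivations -/
theorem card_der {p : ℕ} [hp : Fact p.Prime] [Finite G] (hN : N.Normal)
    (hNc : ∀ a ∈ N, ∀ b ∈ N, a * b = b * a) (hNp : ∀ a ∈ N, a ^ p = 1) {r : ℕ}
    (hr : ∀ S : Subgroup G, IsPGroup p S → Gen S r) (D : Finset (H → N))
    (hD : ∀ d ∈ D, IsDer H N d) : D.card ≤ Nat.card N * Nat.card N ^ r := by
  classical
  have : Fintype N := Fintype.ofFinite _
  -- a Sylow subgroup of H
  obtain ⟨S⟩ : Nonempty (Sylow p H) := inferInstance
  have hSp : IsPGroup p ((S : Subgroup H).map H.subtype) := S.2.map _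
  have hSgen : Gen (S : Subgroup H) r := Gen.of_map_subtype (hr _ hSp)
  obtain ⟨x, hx⟩ := hSgen
  have hcop : Nat.Coprime p (S : Subgroup H).index :=
    (Nat.Prime.coprime_iff_not_dvd hp.out).2 S.not_dvd_index
  refine (Finset.card_le_mul_card_image (f := fun d : H → N => fun i : Fin r => d (x i)) D
    (Nat.card N) ?_).trans ?_
  · intro y hy
    rw [Finset.mem_image] at hy
    obtain ⟨e, he, rfl⟩ := hy
    -- the fibre injects into N
    have h1 : ∀ d ∈ D.filter (fun d => (fun i : Fin r => d (x i)) = fun i => e (x i)),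
        ∃ m : N, ∀ g : H, (d g : G) = (m : G) * ((g : G) * (m : G)⁻¹ * (g : G)⁻¹) * (e g : G) := by
      intro d hd
      rw [Finset.mem_filter] at hd
      refine IsDer.principal hN hNc hNp (hD d hd.1) (hD e he) (S : Subgroup H) hcop ?_
      rw [← hx]
      apply IsDer.eq_on_closure (hD d hd.1) (hD e he)
      rintro _ ⟨i, rfl⟩
      exact congrFun hd.2 i
    let φ : N → (H → N) := fun m g =>
      m * ⟨(g : G) * (m : G)⁻¹ * (g : G)⁻¹, hN.conj_mem _ (N.inv_mem m.2) g⟩ * e g
    have h2 : D.filter (fun d => (fun i : Fin r => d (x i)) = fun i => e (x i)) ⊆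
        Finset.univ.image φ := by
      intro d hd
      obtain ⟨m, hm⟩ := h1 d hd
      rw [Finset.mem_image]
      refine ⟨m, Finset.mem_univ _, ?_⟩
      funext g
      apply Subtype.ext
      rw [hm g]
      rfl
    rw [Nat.card_eq_fintype_card]
    exact (Finset.card_le_card h2).trans Finset.card_image_le
  · apply Nat.mul_le_mul_left
    refine (Finset.card_le_univ _).trans ?_
    rw [Fintype.card_fun, Fintype.card_fin, Nat.card_eq_fintype_card]

end deriv

end Pool.Agent.Results.MP_518c18_al.SolubleRank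

namespace Pool.Agent.Results.MP_518c18_al.SolubleRank

open scoped commutatorElement

/-- generators of a quotient by a minimal normal elementary abelian subgroup can be lifted -/
theorem lift_gen {G : Type*} [Group G] [Finite G] {p : ℕ} [hp : Fact p.Prime] (N : Subgroup G)
    [hN : N.Normal] (hNc : ∀ a ∈ N, ∀ b ∈ N, a * b = b * a) (hNp : ∀ a ∈ N, a ^ p = 1)
    (hmin : ∀ M : Subgroup G, M.Normal → M ≤ N → M = ⊥ ∨ M = N) (hNne : N ≠ ⊥) {r : ℕ}
    (hr : ∀ S : Subgroup G, IsPGroup p S → Gen S r)
    {d : ℕ} (hd : r + 2 ≤ d) (hq : Gen (⊤ : Subgroup (G ⧸ N)) d) : Gen (⊤ : Subgroup G) d := by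
  classical
  have hft : Fintype N := Fintype.ofFinite _
  obtain ⟨y, hy⟩ := hq
  have hx : ∀ i, ∃ g : G, QuotientGroup.mk' N g = y i := fun i => QuotientGroup.mk'_surjective N _
  choose x hx using hx
  by_contra hcon
  let L : (Fin d → N) → Subgroup G := fun n =>
    Subgroup.closure (range fun i => (n i : G) * x i)
  have hLtop : ∀ n, L n ≠ ⊤ := fun n h => hcon ⟨_, h⟩
  have hLN : ∀ n, ∀ g : G, ∃ m ∈ N, m * g ∈ L n := by
    intro n g
    have h1 : (L n).map (QuotientGroup.mk' N) = ⊤ := by
      show (Subgroup.closure _).map _ = ⊤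
      rw [MonoidHom.map_closure, ← hy, ← range_comp]
      congr 2
      funext i
      show QuotientGroup.mk' N ((n i : G) * x i) = y i
      rw [map_mul, hx]
      have : QuotientGroup.mk' N (n i : G) = 1 := (QuotientGroup.eq_one_iff _).2 (n i).2
      rw [this, one_mul]
    have h2 : QuotientGroup.mk' N g ∈ (L n).map (QuotientGroup.mk' N) := by rw [h1]; trivial
    obtain ⟨h, hh, hhg⟩ := h2
    refine ⟨h * g⁻¹, ?_, ?_⟩
    · rw [← QuotientGroup.eq_one_iff]
      show QuotientGroup.mk' N (h * g⁻¹) = 1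
      rw [map_mul, map_inv, hhg, mul_inv_cancel]
    · rw [inv_mul_cancel_right]
      exact hh
  have hLbot : ∀ n, ∀ a ∈ N, a ∈ L n → a = 1 := by
    intro n
    have hM : (L n ⊓ N).Normal := by
      constructor
      rintro a ⟨ha, haN⟩ g
      obtain ⟨m, hm, hmg⟩ := hLN n g
      refine ⟨?_, hN.conj_mem a haN g⟩
      have h1 : g * a * g⁻¹ = m⁻¹ * ((m * g) * a * (m * g)⁻¹) * m := by group
      have h2 : (m * g) * a * (m * g)⁻¹ ∈ N := hN.conj_mem a haN _
      have h3 : m⁻¹ * ((m * g) * a * (m * g)⁻¹) = ((m * g) * a * (m * g)⁻¹) * m⁻¹ :=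
        hNc _ (N.inv_mem hm) _ h2
      rw [h1, h3, inv_mul_cancel_right]
      exact (L n).mul_mem ((L n).mul_mem hmg ha) ((L n).inv_mem hmg)
    rcases hmin _ hM inf_le_right with h | h
    · intro a ha haL
      have : a ∈ L n ⊓ N := ⟨haL, ha⟩
      rw [h] at this
      exact this
    · exfalso
      apply hLtop n
      rw [eq_top_iff]
      intro g _
      obtain ⟨m, hm, hmg⟩ := hLN n g
      have h1 : m ∈ L n := by
        have : m ∈ L n ⊓ N := by rw [h]; exact hm
        exact this.1
      have h2 : g = m⁻¹ * (m * g) := by group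
      rw [h2]
      exact (L n).mul_mem ((L n).inv_mem h1) hmg
  have huniq : ∀ n, ∀ g : G, ∀ m ∈ N, ∀ m' ∈ N, m * g ∈ L n → m' * g ∈ L n → m = m' := by
    intro n g m hm m' hm' h1 h2
    have h3 : m * m'⁻¹ ∈ L n := by
      have : m * m'⁻¹ = (m * g) * (m' * g)⁻¹ := by group
      rw [this]
      exact (L n).mul_mem h1 ((L n).inv_mem h2)
    have h4 := hLbot n _ (N.mul_mem hm (N.inv_mem hm')) h3
    exact mul_inv_eq_one.1 h4
  let H : Subgroup G := L 1
  have hxH : ∀ i, x i ∈ H := by
    intro i
    apply Subgroup.subset_closure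
    refine ⟨i, ?_⟩
    show ((1 : N) : G) * x i = x i
    rw [Subgroup.coe_one, one_mul]
  choose dd hdd1 hdd2 using hLN
  let D : (Fin d → N) → (H → N) := fun n h => ⟨dd n h, hdd1 n h⟩
  have hD : ∀ n, IsDer H N (D n) := by
    intro n g h
    apply huniq n ((g : G) * h)
    · exact (D n (g * h)).2
    · exact N.mul_mem (D n g).2 (hN.conj_mem _ (D n h).2 _)
    · exact hdd2 n ((g : G) * h)
    · have h1 := (L n).mul_mem (hdd2 n (g : G)) (hdd2 n (h : G))
      have h2 : (D n g : G) * ((g : G) * (D n h : G) * (g : G)⁻¹) * ((g : G) * h)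
          = (dd n g * g) * (dd n h * h) := by
        show dd n g * ((g : G) * dd n h * (g : G)⁻¹) * ((g : G) * h) = _
        group
      rw [h2]
      exact h1
  have hDx : ∀ n i, D n ⟨x i, hxH i⟩ = n i := by
    intro n i
    apply Subtype.ext
    apply huniq n (x i)
    · exact (D n _).2
    · exact (n i).2
    · exact hdd2 n (x i)
    · exact Subgroup.subset_closure ⟨i, rfl⟩
  have hDinj : Function.Injective D := by
    intro n n' h
    funext i
    rw [← hDx n i, ← hDx n' i, h]
  have hcard := card_der hN hNc hNp hr (Finset.univ.image D) (by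
    intro d hd
    rw [Finset.mem_image] at hd
    obtain ⟨n, _, rfl⟩ := hd
    exact hD n)
  rw [Finset.card_image_of_injective _ hDinj, Finset.card_univ, Fintype.card_fun, Fintype.card_fin,
    ← Nat.card_eq_fintype_card] at hcard
  have h1 : 1 < Nat.card N := by
    have : Nontrivial N := (Subgroup.nontrivial_iff_ne_bot N).2 hNne
    exact Finite.one_lt_card
  have h2 : Nat.card N * Nat.card N ^ r < Nat.card N ^ d := by
    rw [← pow_succ']
    exact Nat.pow_lt_pow_right h1 (by omega)
  omega

theorem exists_minimal_normal (G : Type) [Group G] [Finite G] (R : Subgroup G) [hR : R.Normal]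
    (hRne : R ≠ ⊥) (hs : Group.IsSolvable R) :
    ∃ (p : ℕ) (_ : p.Prime) (N : Subgroup G), N.Normal ∧ N ≠ ⊥ ∧ N ≤ R ∧
      (∀ a ∈ N, ∀ b ∈ N, a * b = b * a) ∧ (∀ a ∈ N, a ^ p = 1) ∧
      ∀ M : Subgroup G, M.Normal → M ≤ N → M = ⊥ ∨ M = N := by
  classical
  have hRnt : Nontrivial R := (Subgroup.nontrivial_iff_ne_bot R).2 hRne
  obtain ⟨n, hn⟩ := hs.solvable
  obtain ⟨m, hm1, hm2⟩ : ∃ m, derivedSeries R m ≠ ⊥ ∧ derivedSeries R (m + 1) = ⊥ := by
    by_contra h
    push Not at h
    have : ∀ k, derivedSeries R k ≠ ⊥ := by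
      intro k
      induction k with
      | zero =>
        rw [derivedSeries_zero]
        exact top_ne_bot
      | succ k ih => exact h k ih
    exact this n hn
  have hchar : (derivedSeries R m).Characteristic := derivedSeries_characteristic R m
  obtain ⟨D, hDdef⟩ : ∃ D, D = (derivedSeries R m).map R.subtype := ⟨_, rfl⟩
  have hDn : D.Normal := by
    rw [hDdef]
    exact ConjAct.normal_of_characteristic_of_normal
  have hDR : D ≤ R := by
    rw [hDdef]
    exact Subgroup.map_subtype_le _
  have hDc : ∀ a ∈ D, ∀ b ∈ D, a * b = b * a := by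
    rw [hDdef]
    rintro _ ⟨a, ha, rfl⟩ _ ⟨b, hb, rfl⟩
    rw [derivedSeries_succ] at hm2
    have h1 : ⁅a, b⁆ ∈ ⁅derivedSeries R m, derivedSeries R m⁆ :=
      Subgroup.commutator_mem_commutator ha hb
    rw [hm2, Subgroup.mem_bot] at h1
    rw [← map_mul, ← map_mul, commutatorElement_eq_one_iff_mul_comm.1 h1]
  have hDne : D ≠ ⊥ := by
    rw [hDdef]
    intro h
    rw [Subgroup.map_eq_bot_iff_of_injective _ R.subtype_injective] at h
    exact hm1 h
  have hDnt : Nontrivial D := (Subgroup.nontrivial_iff_ne_bot D).2 hDne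
  have hD1 : Nat.card D ≠ 1 := (Finite.one_lt_card (α := D)).ne'
  obtain ⟨p, hp, hpD⟩ := Nat.exists_prime_and_dvd hD1
  have hpf : Fact p.Prime := ⟨hp⟩
  obtain ⟨z, hz⟩ := exists_prime_orderOf_dvd_card' p hpD
  let E : Subgroup G :=
    { carrier := {x | x ∈ D ∧ x ^ p = 1}
      one_mem' := ⟨D.one_mem, one_pow p⟩
      mul_mem' := by
        rintro a b ⟨ha, ha'⟩ ⟨hb, hb'⟩
        refine ⟨D.mul_mem ha hb, ?_⟩
        rw [(show Commute a b from hDc a ha b hb).mul_pow, ha', hb', one_mul]
      inv_mem' := by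
        rintro a ⟨ha, ha'⟩
        refine ⟨D.inv_mem ha, ?_⟩
        rw [inv_pow, ha', inv_one] }
  have hE : E.Normal := by
    constructor
    rintro n ⟨hn, hn'⟩ g
    refine ⟨hDn.conj_mem n hn g, ?_⟩
    rw [conj_pow, hn', mul_one, mul_inv_cancel]
  have hEne : E ≠ ⊥ := by
    intro h
    have h1 : (z : G) ∈ E := by
      refine ⟨z.2, ?_⟩
      rw [← Subgroup.coe_pow, ← hz, pow_orderOf_eq_one]; rfl
    rw [h, Subgroup.mem_bot] at h1
    have h2 : z = 1 := Subtype.ext h1
    rw [h2, orderOf_one] at hz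
    exact hp.ne_one hz.symm
  let S : Set (Subgroup G) := {M | M.Normal ∧ M ≤ E ∧ M ≠ ⊥}
  obtain ⟨N, ⟨hN1, hN2, hN3⟩, hNmin⟩ := Set.Finite.exists_minimal S.toFinite ⟨E, hE, le_rfl, hEne⟩
  refine ⟨p, hp, N, hN1, hN3, fun a ha => hDR (hN2 ha).1, ?_, ?_, ?_⟩
  · intro a ha b hb
    exact hDc a (hN2 ha).1 b (hN2 hb).1
  · intro a ha
    exact (hN2 ha).2
  · intro M hM hMN
    by_cases h : M = ⊥
    · exact Or.inl h
    · right
      exact le_antisymm hMN (hNmin ⟨hM, hMN.trans hN2, h⟩ hMN)

/-- `p`-subgroups of a quotient are images of `p`-subgroups -/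
theorem pgroup_lift {G : Type*} [Group G] [Finite G] (N : Subgroup G) [N.Normal] {p : ℕ}
    [Fact p.Prime] (T : Subgroup (G ⧸ N)) (hT : IsPGroup p T) :
    ∃ S : Subgroup G, IsPGroup p S ∧ S.map (QuotientGroup.mk' N) = T := by
  let L : Subgroup G := T.comap (QuotientGroup.mk' N)
  let f : L →* T := (QuotientGroup.mk' N).subgroupComap T
  have hf : Function.Surjective f :=
    MonoidHom.subgroupComap_surjective_of_surjective _ _ (QuotientGroup.mk'_surjective N)
  obtain ⟨P⟩ : Nonempty (Sylow p L) := inferInstance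
  refine ⟨(P : Subgroup L).map L.subtype, P.2.map _, ?_⟩
  have h1 : (P : Subgroup L).map f = ⊤ := by
    have h2 := (P.mapSurjective hf).3 (Q := ⊤) (hT.of_equiv Subgroup.topEquiv.symm) le_top
    rw [h2]
    rfl
  ext t
  constructor
  · rintro ⟨_, ⟨l, _, rfl⟩, rfl⟩
    exact l.2
  · intro ht
    have h3 : (⟨t, ht⟩ : T) ∈ (P : Subgroup L).map f := by rw [h1]; trivial
    obtain ⟨l, hl, hlt⟩ := h3
    exact ⟨l, ⟨l, hl, rfl⟩, congrArg Subtype.val hlt⟩

theorem Gen.of_mulEquiv {G G' : Type*} [Group G] [Group G'] (e : G ≃* G') {k : ℕ}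
    (h : Gen (⊤ : Subgroup G) k) : Gen (⊤ : Subgroup G') k := by
  have h1 := h.map e.toMonoidHom
  rwa [← MonoidHom.range_eq_map, MonoidHom.range_eq_top.2 e.surjective] at h1

theorem solvable_gen (n : ℕ) : ∀ (G : Type) [Group G] [Finite G] (R : Subgroup G) [R.Normal],
    Group.IsSolvable R → Nat.card G = n →
    ∀ r : ℕ, (∀ (p : ℕ) (_ : p.Prime) (S : Subgroup G), IsPGroup p S → Gen S r) →
      ∀ d : ℕ, r + 2 ≤ d → Gen (⊤ : Subgroup (G ⧸ R)) d → Gen (⊤ : Subgroup G) d := by
  induction n using Nat.strong_induction_on with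
  | _ n IH =>
  intro G _ _ R hRn hs hn r hr d hd hq
  by_cases hRne : R = ⊥
  · subst hRne
    exact hq.of_mulEquiv QuotientGroup.quotientBot
  obtain ⟨p, hp, N, hN, hNne, hNR, hNc, hNp, hmin⟩ := exists_minimal_normal G R hRne hs
  have hpf : Fact p.Prime := ⟨hp⟩
  apply lift_gen (p := p) N hNc hNp hmin hNne (hr p hp) hd
  have hmul : Nat.card G = Nat.card (G ⧸ N) * Nat.card N :=
    Subgroup.card_eq_card_quotient_mul_card_subgroup N
  have h1 : 1 < Nat.card N := by
    have : Nontrivial N := (Subgroup.nontrivial_iff_ne_bot N).2 hNne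
    exact Finite.one_lt_card
  have h2 : 0 < Nat.card (G ⧸ N) := Nat.card_pos
  have hRn' : (R.map (QuotientGroup.mk' N)).Normal := hRn.map _ (QuotientGroup.mk'_surjective N)
  have hRs' : Group.IsSolvable (R.map (QuotientGroup.mk' N)) :=
    Group.isSolvable_of_surjective (f := (QuotientGroup.mk' N).subgroupMap R)
      (MonoidHom.subgroupMap_surjective _ _)
  refine IH (Nat.card (G ⧸ N)) (by rw [← hn, hmul]; nlinarith) (G ⧸ N)
    (R.map (QuotientGroup.mk' N)) hRs' rfl r ?_ d hd ?_
  · intro q hq T hT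
    have hqf : Fact q.Prime := ⟨hq⟩
    obtain ⟨S, hS, rfl⟩ := pgroup_lift N T hT
    exact (hr q hq S hS).map _
  · exact hq.of_mulEquiv (QuotientGroup.quotientQuotientEquivQuotient N R hNR).symm

/-- For every finite group `G`, every field `F` with more elements than `G` has subgroups and of
characteristic zero or coprime to `|G|`, and every faithful representation of `G` over `F`, with
`n` orbit sizes: all soluble subgroups of `G` can be generated by `4 n - 3` elements, and every
subgroup `H` with a soluble normal subgroup `R` such that `H / R` is generated by `d` elements can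
be generated by `max (4 n - 3) d` elements. -/
theorem result (G : Type) [Group G] [Finite G] (F : Type) [Field F]
    (V : Type) [AddCommGroup V] [Module F V]
    (ρ : Representation F G V) (hρ : Function.Injective ρ)
    (hF : Cardinal.mk (Subgroup G) < Cardinal.mk F)
    (hchar : ringChar F = 0 ∨ Nat.Coprime (ringChar F) (Nat.card G)) :
    (∀ H : Subgroup G, Group.IsSolvable H → ∃ s : Finset G,
      s.card ≤ 4 * Set.ncard {k : ℕ | ∃ v : V,
        Set.ncard (Set.range fun g : G => ρ g v) = k} - 3 ∧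
      Subgroup.closure (s : Set G) = H) ∧
    (∀ (H : Subgroup G) (R : Subgroup H) [R.Normal], Group.IsSolvable R →
      ∀ t : Finset (H ⧸ R), Subgroup.closure (t : Set (H ⧸ R)) = ⊤ → ∃ s : Finset G,
      s.card ≤ max (4 * Set.ncard {k : ℕ | ∃ v : V,
        Set.ncard (Set.range fun g : G => ρ g v) = k} - 3) t.card ∧
      Subgroup.closure (s : Set G) = H) := by
  classical
  have hgen : ∀ (H : Subgroup G) (k : ℕ), Gen H k → ∃ s : Finset G, s.card ≤ k ∧
      Subgroup.closure (s : Set G) = H := by
    rintro H k ⟨x, hx⟩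
    refine ⟨Finset.univ.image x, ?_, ?_⟩
    · refine Finset.card_image_le.trans ?_
      rw [Finset.card_univ, Fintype.card_fin]
    · rw [Finset.coe_image, Finset.coe_univ, image_univ, hx]
  have main : ∀ (H : Subgroup G) (R : Subgroup H) [R.Normal], Group.IsSolvable R →
      ∀ t : Finset (H ⧸ R), Subgroup.closure (t : Set (H ⧸ R)) = ⊤ → ∃ s : Finset G,
      s.card ≤ max (4 * Set.ncard {k : ℕ | ∃ v : V,
        Set.ncard (Set.range fun g : G => ρ g v) = k} - 3) t.card ∧
      Subgroup.closure (s : Set G) = H := by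
    intro H R _ hR t ht
    rcases subsingleton_or_nontrivial G with hsub | hnt
    · refine ⟨∅, by simp, ?_⟩
      rw [Finset.coe_empty, Subgroup.closure_empty]
      exact Subsingleton.elim _ _
    -- the number of orbit sizes is at least two
    have h3 : 1 < Set.ncard (OS ρ) := by
      rw [Set.one_lt_ncard (OS_finite ρ)]
      obtain ⟨g, hg⟩ := exists_ne (1 : G)
      have h4 : ρ g ≠ 1 := by
        intro h
        apply hg
        apply hρ
        rw [h, map_one]
      obtain ⟨w, hw⟩ : ∃ w, ρ g w ≠ w := by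
        by_contra h
        push Not at h
        exact h4 (LinearMap.ext h)
      refine ⟨1, ⟨0, ?_⟩, _, ⟨w, rfl⟩, ?_⟩
      · simp
      · intro h
        rw [card_range] at h
        have h5 := Subgroup.index_eq_one.1 h.symm
        have h6 : g ∈ St ρ {w} := by rw [h5]; trivial
        exact hw (h6 w rfl)
    have h4 : Gen (⊤ : Subgroup (H ⧸ R)) t.card := by
      refine ⟨fun i => (t.equivFin.symm i : H ⧸ R), ?_⟩
      rw [← ht]
      congr 1
      ext y
      constructor
      · rintro ⟨i, rfl⟩
        exact (t.equivFin.symm i).2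
      · intro hy
        exact ⟨t.equivFin ⟨y, hy⟩, by simp⟩
    have h1 : Gen (⊤ : Subgroup H) (max (4 * Set.ncard (OS ρ) - 3) t.card) := by
      apply solvable_gen (Nat.card H) H R hR rfl (4 * Set.ncard (OS ρ) - 5) ?_
      · exact le_trans (by omega) (le_max_left _ _)
      · exact h4.mono (le_max_right _ _)
      · intro p hp S hS
        have hpf : Fact p.Prime := ⟨hp⟩
        apply Gen.of_map_subtype
        exact pgroup_bound ρ hρ hF hchar p _ (hS.map _)
    have h2 := h1.map H.subtype
    rw [← MonoidHom.range_eq_map, Subgroup.range_subtype] at h2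
    exact hgen H _ h2
  refine ⟨?_, main⟩
  intro H hH
  have hT : Group.IsSolvable (⊤ : Subgroup H) := inferInstance
  obtain ⟨s, hs1, hs2⟩ := main H ⊤ hT ∅ (by
        have : Subsingleton (H ⧸ (⊤ : Subgroup H)) := QuotientGroup.subsingleton_quotient_top
        exact Subsingleton.elim _ _)
  refine ⟨s, ?_, hs2⟩
  simpa using hs1

end Pool.Agent.Results.MP_518c18_al.SolubleRank
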